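import Pool.Agent.H30.FA.Defs

/-!
MP_6a7a6f_gt, asymptotic value of the filling radius of complex projective spaces: targets of
part A (configurations have no symmetry which turns one of two large axes) and part B (sections).
-/

namespace Pool.Agent.H30.FA

noncomputable section

/-! ## A. Symmetries -/

/-- BAS: basic facts on configurations. -/
def T_BAS : Prop := ∀ (κ : ℝ) (J E : Type) [Fintype J] [NormedAddCommGroup E]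
  [InnerProductSpace ℂ E] (d : ℕ) (C : Cfg κ J E d),
  (∀ a, C.r a = ∑ j, C.t j * ‖inner ℂ (C.e a) (C.x j)‖ ^ 2) ∧
  (∀ a, 0 ≤ C.r a) ∧ (∀ a, C.r a ≤ 1) ∧ ∑ a, C.r a = 1 ∧ κ ≤ 1 ∧
  (∀ z : E, ∑ j, C.t j * ‖inner ℂ z (C.x j)‖ ^ 2 = ∑ a, C.r a * ‖inner ℂ z (C.e a)‖ ^ 2) ∧
  (∀ z : E, ∑ j, C.t j * ‖inner ℂ (C.x j) z‖ ^ 2 = ∑ a, C.r a * ‖inner ℂ z (C.e a)‖ ^ 2) ∧
  (∀ δ : ℝ, 0 < δ → ((Finset.univ.filter fun a => δ ≤ C.r a).card : ℝ) * δ ≤ 1) ∧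
  (∀ z y : E, inner ℂ z y = pin C.e Finset.univ z y) ∧
  (∀ z : E, ‖z‖ ^ 2 = ∑ a, ‖inner ℂ z (C.e a)‖ ^ 2) ∧
  κ ≤ ∑ a, C.r a ^ 2

/-- COM: the moment of order one and the commutator. -/
def T_COM : Prop := ∀ (κ : ℝ) (J E : Type) [Fintype J] [NormedAddCommGroup E]
  [InnerProductSpace ℂ E] (d : ℕ) (C : Cfg κ J E d) (g : E ≃ₗᵢ[ℂ] E),
  2 * (qq C.t C.x 1 1 - qq C.t C.x 1 g) =
    ∑ a, ∑ b, ‖inner ℂ (C.e a) (g (C.e b))‖ ^ 2 * (C.r a - C.r b) ^ 2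

/-- PDK: powers of an approximate symmetry. -/
def T_PDK : Prop := ∀ (J E : Type) [Fintype J] [NormedAddCommGroup E]
  [InnerProductSpace ℂ E] (d : ℕ) (_ : OrthonormalBasis (Fin d) ℂ E) (t : J → ℝ) (x : J → E)
  (j : ℕ) (g : E ≃ₗᵢ[ℂ] E), 0 ≤ qq t x j 1 - qq t x j g ∧
  ∀ m : ℕ, qq t x j 1 - qq t x j (g ^ m) ≤ (m : ℝ) ^ 2 * (qq t x j 1 - qq t x j g)

/-- REC: recurrence: some power of an approximate symmetry nearly fixes all basis vectors with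
eigenvalue at least `δ`. -/
def T_REC : Prop := ∀ δ s : ℝ, 0 < δ → 0 < s → ∃ (Q : ℕ) (ε : ℝ), 0 < ε ∧
  ∀ (κ : ℝ) (J E : Type) [Fintype J] [NormedAddCommGroup E] [InnerProductSpace ℂ E] (d : ℕ)
    (C : Cfg κ J E d) (g : E ≃ₗᵢ[ℂ] E), qq C.t C.x 1 1 - qq C.t C.x 1 g ≤ ε →
    ∃ m : ℕ, 1 ≤ m ∧ m ≤ Q ∧ ∀ a, δ ≤ C.r a → ‖(g ^ m) (C.e a) - C.e a‖ ≤ s

/-- IRR: the angle `m` is not a multiple of `2 π`. -/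
def T_IRR : Prop := ∀ Q : ℕ, ∃ τ : ℝ, 0 < τ ∧ ∀ m : ℕ, 1 ≤ m → m ≤ Q → ∀ θ : ℝ,
  Complex.exp (θ * Complex.I) = Complex.exp (-(m : ℂ) * Complex.I) → τ ≤ |θ|

/-- TRA: triangles with all overlaps larger than `1/4` do not have the phase `π`. -/
def T_TRA : Prop := ∀ κ₀ : ℝ, 1 / 4 < κ₀ → ∃ γ : ℝ, 0 < γ ∧
  ∀ (E : Type) [NormedAddCommGroup E] [InnerProductSpace ℂ E] (a b c : E),
  ‖a‖ = 1 → ‖b‖ = 1 → ‖c‖ = 1 → κ₀ ≤ ‖inner ℂ a b‖ ^ 2 → κ₀ ≤ ‖inner ℂ b c‖ ^ 2 →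
  κ₀ ≤ ‖inner ℂ c a‖ ^ 2 →
  -(1 - γ) * ‖inner ℂ a b * inner ℂ b c * inner ℂ c a‖ ≤
    (inner ℂ a b * inner ℂ b c * inner ℂ c a).re

/-- AGS: the principal argument away from the negative real axis. -/
def T_AGS : Prop := ∀ γ c β : ℝ, 0 < γ → 0 < c → 0 < β → ∃ s : ℝ, 0 < s ∧ ∀ z w : ℂ,
  c ≤ ‖z‖ → c ≤ ‖w‖ → -(1 - γ) * ‖z‖ ≤ z.re → -(1 - γ) * ‖w‖ ≤ w.re → ‖z - w‖ ≤ s →
  |z.arg - w.arg| ≤ β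

/-- the product whose phase is followed -/
def Rp {E : Type} [NormedAddCommGroup E] [InnerProductSpace ℂ E] (h h' x y : E) : ℂ :=
  inner ℂ h x * inner ℂ x y * inner ℂ y h'

/-- TOP: the winding argument. -/
def T_TOP : Prop := ∀ κ₀ : ℝ, 1 / 4 < κ₀ → ∃ s : ℝ, 0 < s ∧ s ≤ 1 ∧
  ∀ (E : Type) [NormedAddCommGroup E] [InnerProductSpace ℂ E] (K : ℕ) (θ σ : ℝ) (x y : ℕ → E)
    (x' y' h h' : E), |θ| ≤ 1 → 0 ≤ σ → K * σ ≤ 1 → σ ≤ s →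
  (∀ k, k ≤ K → ‖x k‖ = 1 ∧ ‖y k‖ = 1) → ‖x'‖ = 1 → ‖y'‖ = 1 → ‖h‖ = 1 → ‖h'‖ = 1 →
  (∀ k, k ≤ K → κ₀ ≤ ‖inner ℂ h (x k)‖ ^ 2 ∧ κ₀ ≤ ‖inner ℂ (x k) x'‖ ^ 2 ∧
    κ₀ ≤ ‖inner ℂ (x k) y'‖ ^ 2 ∧ κ₀ ≤ ‖inner ℂ (x k) (y k)‖ ^ 2 ∧
    κ₀ ≤ ‖inner ℂ (y k) y'‖ ^ 2 ∧ κ₀ ≤ ‖inner ℂ h' (y k)‖ ^ 2) →
  κ₀ ≤ ‖inner ℂ h x'‖ ^ 2 → κ₀ ≤ ‖inner ℂ x' y'‖ ^ 2 → κ₀ ≤ ‖inner ℂ h' y'‖ ^ 2 →
  (∀ k, k < K → ‖inner ℂ h (x (k + 1)) - inner ℂ h (x k)‖ ≤ s ∧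
    ‖inner ℂ (x (k + 1)) x' - inner ℂ (x k) x'‖ ≤ s ∧
    ‖inner ℂ (x (k + 1)) y' - inner ℂ (x k) y'‖ ≤ s ∧
    ‖inner ℂ (x (k + 1)) (y (k + 1)) - inner ℂ (x k) (y k)‖ ≤ s ∧
    ‖inner ℂ (y (k + 1)) y' - inner ℂ (y k) y'‖ ≤ s ∧
    ‖inner ℂ h' (y (k + 1)) - inner ℂ h' (y k)‖ ≤ s) →
  (∀ k, k < K → ‖Rp h h' (x (k + 1)) (y (k + 1)) -
    Complex.exp (θ * Complex.I) * Rp h h' (x k) (y k)‖ ≤ σ) →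
  K * |θ| ≤ 60

open Classical in
/-- SEL: selection of four points. -/
def T_SEL : Prop := ∀ (J : Type) [Fintype J] (t : J → ℝ) (R B M : J → Prop)
  (Z : J → J → Prop) (p b b' : ℝ), Wt t → 0 ≤ p →
  p ≤ ∑ j, (if R j then t j else 0) → p ≤ ∑ j, (if B j then t j else 0) →
  ∑ i, ∑ k, (if Z i k then t i * t k else 0) ≤ b → ∑ j, (if M j then t j else 0) ≤ b' →
  3 * b + 2 * b' < p ^ 4 →
  ∃ i i' j j', t i ≠ 0 ∧ t i' ≠ 0 ∧ t j ≠ 0 ∧ t j' ≠ 0 ∧ R i ∧ R i' ∧ B j ∧ B j' ∧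
    ¬ Z i i' ∧ ¬ Z i j' ∧ ¬ Z j j' ∧ ¬ M i' ∧ ¬ M j'

open Classical in
/-- RED: many points have a large component in the direction of an eigenvector with a large
eigenvalue. -/
def T_RED : Prop := ∀ (κ : ℝ) (J E : Type) [Fintype J] [NormedAddCommGroup E]
  [InnerProductSpace ℂ E] (d : ℕ) (C : Cfg κ J E d) (a : Fin d) (κr : ℝ), 0 ≤ κr →
  C.r a - κr ≤ ∑ j, (if κr ≤ ‖inner ℂ (C.e a) (C.x j)‖ ^ 2 then C.t j else 0)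

open Classical in
/-- OVL: the images of the points under powers of an approximate symmetry have large overlaps
with most of the points. -/
def T_OVL : Prop := ∀ (κ κ₀ : ℝ) (J E : Type) [Fintype J] [NormedAddCommGroup E]
  [InnerProductSpace ℂ E] (d : ℕ) (C : Cfg κ J E d) (g : E ≃ₗᵢ[ℂ] E) (D : ℕ) (ε : ℝ),
  0 ≤ κ₀ → κ₀ < 1 → 0 ≤ ε → (∀ j, j ≤ D → qq C.t C.x j 1 - ε ≤ qq C.t C.x j g) → ∀ m : ℕ,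
  ∑ i, ∑ k, (if ‖inner ℂ ((g ^ m) (C.x i)) (C.x k)‖ ^ 2 < κ₀ then C.t i * C.t k else 0) ≤
    ((1 - κ) ^ D + 2 ^ D * (m : ℝ) ^ 2 * ε) / (1 - κ₀) ^ D

open Classical in
/-- LOW: the part of small eigenvalues. -/
def T_LOW2 : Prop := ∀ (κ : ℝ) (J E : Type) [Fintype J] [NormedAddCommGroup E]
  [InnerProductSpace ℂ E] (d : ℕ) (C : Cfg κ J E d) (δ s : ℝ) (z : J → E), 0 < δ → 0 < s →
  (∀ i, ‖z i‖ ≤ 2) →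
  ∑ i, ∑ k, (if s < ‖pin C.e (Finset.univ.filter fun a => C.r a < δ) (z i) (C.x k)‖
    then C.t i * C.t k else 0) ≤ 4 * δ / s ^ 2

open Classical in
/-- MID: the middle part. -/
def T_MID : Prop := ∀ (κ : ℝ) (J E : Type) [Fintype J] [NormedAddCommGroup E]
  [InnerProductSpace ℂ E] (d : ℕ) (C : Cfg κ J E d) (S : Finset (Fin d)) (s : ℝ), 0 < s →
  ∑ k, (if s ^ 2 < ∑ a ∈ S, ‖inner ℂ (C.e a) (C.x k)‖ ^ 2 then C.t k else 0) ≤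
    (∑ a ∈ S, C.r a) / s ^ 2

/-- DSP: the displacement. -/
def T_DSP : Prop := ∀ (κ : ℝ) (J E : Type) [Fintype J] [NormedAddCommGroup E]
  [InnerProductSpace ℂ E] (d : ℕ) (C : Cfg κ J E d) (g : E ≃ₗᵢ[ℂ] E) (δ δ' s₁ s₂ : ℝ)
  (x y : E) (k : ℕ), 0 < δ → δ' < δ → 0 ≤ s₁ → 0 ≤ s₂ → ‖x‖ = 1 → ‖y‖ = 1 →
  (∀ a, δ ≤ C.r a → ‖g (C.e a) - C.e a‖ ≤ s₁) →
  ∑ a ∈ Finset.univ.filter (fun a => δ' ≤ C.r a ∧ C.r a < δ), ‖inner ℂ (C.e a) y‖ ^ 2 ≤ s₂ ^ 2 →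
  ‖pin C.e (Finset.univ.filter fun a => C.r a < δ') ((g ^ (k + 1)) x - (g ^ k) x) y‖ ≤ s₂ →
  ‖inner ℂ ((g ^ (k + 1)) x) y - inner ℂ ((g ^ k) x) y‖ ≤ s₁ / δ + 3 * s₂

/-- STE: the main step: if there is an approximate symmetry then there are eigenvalues with a
fixed sum in every window. -/
def T_STE : Prop := ∀ κ κ₂ : ℝ, 1 / 4 < κ₂ → κ₂ ≤ κ → ∃ e₀ : ℝ, 0 < e₀ ∧
  ∀ δ : ℝ, 0 < δ → δ ≤ 1 / 4 → ∃ (δ' : ℝ) (D : ℕ) (ε : ℝ), 0 < δ' ∧ δ' < δ ∧ 0 < ε ∧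
  ∀ (J E : Type) [Fintype J] [NormedAddCommGroup E] [InnerProductSpace ℂ E] (d : ℕ)
    (C : Cfg κ J E d) (a₀ a₁ : Fin d) (g : E ≃ₗᵢ[ℂ] E), κ₂ ≤ C.r a₀ → κ₂ ≤ C.r a₁ →
    Sy C D ε a₀ a₁ g → e₀ ≤ midsum C δ' δ

/-- NSY: configurations have no approximate symmetry which fixes one axis and turns another one,
if both axes have eigenvalues larger than `1/4`. -/
def T_NSY : Prop := ∀ κ κ₂ : ℝ, 1 / 4 < κ₂ → κ₂ ≤ κ → ∃ (D : ℕ) (ε : ℝ), 0 < ε ∧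
  ∀ (J E : Type) [Fintype J] [NormedAddCommGroup E] [InnerProductSpace ℂ E] (d : ℕ)
    (C : Cfg κ J E d) (a₀ a₁ : Fin d) (g : E ≃ₗᵢ[ℂ] E), κ₂ ≤ C.r a₀ → κ₂ ≤ C.r a₁ →
    ¬ Sy C D ε a₀ a₁ g

/-! ## B. Sections -/

/-- FTR: the features. -/
def T_FTR : Prop := ∀ (A D : ℕ) (z w : Fin A → ℂ),
  (inner ℂ (ft D z) (ft D w) = ((∑ j ∈ Finset.range (D + 1),
    ‖∑ a, (starRingEnd ℂ) (z a) * w a‖ ^ (2 * j) : ℝ) : ℂ)) ∧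
  (∑ a, ‖z a‖ ^ 2 ≤ 1 → ‖ft D z‖ ^ 2 ≤ D + 1) ∧
  (∀ c : ℂ, ‖c‖ = 1 → ft D (c • z) = ft D z) ∧
  (∀ j : Fin (D + 1), ∑ q : Fin (j : ℕ) → Fin A × Fin A,
    (starRingEnd ℂ) (ft D z ⟨j, q⟩) * ft D w ⟨j, q⟩ =
      ((‖∑ a, (starRingEnd ℂ) (z a) * w a‖ ^ (2 * (j : ℕ)) : ℝ) : ℂ))

/-- FLP: the functions `FV`. -/
def T_FLP : Prop := ∀ (A D : ℕ) (J : Type) [Fintype J] (k : ℕ) (v : FF A D) (t t' : J → ℝ)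
  (x : J → V (k + 2)) (h h' l l' : V (k + 2)), Wt t → Wt t' → (∀ j, ‖x j‖ = 1) →
  0 ≤ FV v t x h h' ∧ (∀ G, FV v t x h h' ≤ fG v t x h h' G) ∧
  (∀ ε : ℝ, 0 < ε → ∃ G, fG v t x h h' G < FV v t x h h' + ε) ∧
  (|FV v t x h h' - FV v t' x l l'| ≤
    Real.sqrt (D + 1) * ∑ j, |t j - t' j| + ‖h - l‖ + ‖h' - l'‖) ∧
  (∀ α : ℂ, ‖α‖ = 1 → FV v t x (α • h) (α • h') = FV v t x h h')

/-- NET: a finite net. -/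
def T_NET : Prop := ∀ (A D : ℕ) (R ε : ℝ), 0 < ε → ∃ (N : ℕ) (v : Fin N → FF A D),
  ∀ ξ : FF A D, ‖ξ‖ ≤ R → ∃ i, ‖v i - ξ‖ ≤ ε

/-- TRN: truncation of the overlaps. -/
def T_TRN : Prop := ∀ (κ : ℝ) (J : Type) [Fintype J] (d : ℕ) (C : Cfg κ J (V d) d)
  (g : V d ≃ₗᵢ[ℂ] V d) (A j : ℕ), Antitone C.r →
  ∑ i, ∑ k, C.t i * C.t k * |‖inner ℂ (C.x i) (g (C.x k))‖ ^ (2 * j) -
    ‖pin C.e (Finset.univ.filter fun a => (a : ℕ) < A) (C.x i) (g (C.x k))‖ ^ (2 * j)| ≤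
    2 * j / Real.sqrt (A + 1)

/-- DET: detection: the functions `FV` change if the second vector is turned by the angle
`-1`. -/
def T_DET : Prop := ∀ κ κ₂ : ℝ, 1 / 4 < κ₂ → κ₂ ≤ κ → ∃ (A D : ℕ) (ε : ℝ), 0 < ε ∧
  ∀ (J : Type) [Fintype J] (k : ℕ) (C : Cfg κ J (V (k + 2)) (k + 2)), Antitone C.r →
    κ₂ ≤ C.r 1 → ∀ v : FF A D, ‖v - mom A D C.t C.x C.e.repr.symm‖ ≤ ε →
    FV v C.t C.x (C.e 0) (C.e 1) ≤ ε ∧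
    3 * ε < FV v C.t C.x (C.e 0) (Complex.exp (-Complex.I) • C.e 1)

/-- FOU: a Lipschitz function on the circle with small Fourier coefficients of bounded order has
small oscillation. -/
def T_FOU : Prop := ∀ ε : ℝ, 0 < ε → ∃ (W : ℕ) (c : ℝ), 0 < c ∧ ∀ φ : ℝ → ℝ,
  (∀ a b, |φ a - φ b| ≤ |a - b|) → (∀ a, φ (a + 2 * Real.pi) = φ a) →
  (∀ w : ℤ, w ≠ 0 → |w| ≤ W → ‖∫ θ in (0 : ℝ)..(2 * Real.pi),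
    ((φ θ : ℝ) : ℂ) * Complex.exp (-(w * θ) * Complex.I)‖ ≤ c) →
  ∀ a b, |φ a - φ b| ≤ ε

/-- SMO: the Fourier coefficients are Lipschitz and equivariant. -/
def T_SMO : Prop := ∀ (A D : ℕ) (J : Type) [Fintype J] (k : ℕ) (v : FF A D) (w : ℤ)
  (t t' : J → ℝ) (x : J → V (k + 2)) (h h' l l' : V (k + 2)), Wt t → Wt t' →
  (∀ j, ‖x j‖ = 1) →
  (‖SV v w t x h h' - SV v w t' x l l'‖ ≤ 2 * Real.pi *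
    (Real.sqrt (D + 1) * ∑ j, |t j - t' j| + ‖h - l‖ + ‖h' - l'‖)) ∧
  (∀ α β : ℂ, ‖α‖ = 1 → ‖β‖ = 1 →
    SV v w t x (α • h) (β • h') = (β * (starRingEnd ℂ) α) ^ w * SV v w t x h h')

/-- SEC: the sections; their number does not depend on the dimension. -/
def T_SEC : Prop := ∀ κ κ₂ : ℝ, 1 / 4 < κ₂ → κ₂ ≤ κ → ∃ m : ℕ, ∀ (k : ℕ) (J : Type) [Fintype J]
  (x : J → V (k + 2)), (∀ j, ‖x j‖ = 1) → Nonempty (Sec κ κ₂ m k J x)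

end

end Pool.Agent.H30.FA
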