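import Pool.Agent.H30.FA.DefsC

/-!
MP_6a7a6f_gt, asymptotic value of the filling radius of complex projective spaces: targets of
part C (the topological frame).
-/

open Topology Filter

namespace Pool.Agent.H30.FA

noncomputable section

open Pool.Agent.H59 Pool.Agent.H48.FR Pool.Agent.H58.FL

/-! ## C. Chains -/

/-- SPL: splitting of a chain. -/
def T_SPL : Prop := ∀ (X : Type) (K₁ K₂ : Set (Set X)), Down K₁ → Down K₂ →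
  ∀ (k : ℕ) (b : LL (k + 2) X), On (K₁ ∪ K₂) b →
  (∀ t ∈ (bdL (k + 1) X b).support, Set.range t ∈ K₁ ∧ Set.range t ∉ K₂) →
  ∃ b₁ b₂ : LL (k + 2) X, b = b₁ + b₂ ∧ On K₁ b₁ ∧ On K₂ b₂ ∧
    On (K₁ ∩ K₂) (bdL (k + 1) X b₂)

/-- NIL: products with many factors `u - u'` vanish on cycles. -/
def T_NIL : Prop := ∀ (X : Type) (K : Set (Set X)), Down K → ∀ (u u' : X → X → X → ℝ) (m : ℕ)
  (η : Fin m → X → X → ℝ) (w : Fin m → ℤ), (∀ i, w i ≠ 0) → Cl2 K u → Cl2 K u' →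
  (∀ S ∈ K, S.Nonempty → ∃ i, ∀ x ∈ S, ∀ y ∈ S, ∀ z ∈ S,
    w i * (u x y z - u' x y z) = d1 (η i) x y z) →
  ∀ (n : ℕ) (L : List (X → X → X → ℝ)), (∀ g ∈ L, Cl2 K g) → m + L.length = n →
  ∀ z : LL (2 * n + 1) X, On K z → bdL (2 * n) X z = 0 →
  ev (2 * n) (PL (List.replicate m (fun a b c => u a b c - u' a b c) ++ L)) z = 0

/-- ITW: products of closed cochains which are exact modulo integers have integral values on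
cycles. -/
def T_ITW : Prop := ∀ (X : Type) (K : Set (Set X)), Down K → ∀ (L : List (X → X → X → ℝ)),
  (∀ g ∈ L, Cl2 K g ∧ ∃ θ : X → X → ℝ, ∀ S ∈ K, ∀ x ∈ S, ∀ y ∈ S, ∀ z ∈ S,
    ∃ j : ℤ, g x y z - d1 θ x y z = j) →
  ∀ n : ℕ, L.length = n → ∀ z : LL (2 * n + 1) X, On K z → bdL (2 * n) X z = 0 →
  ∃ N : ℤ, ev (2 * n) (PL L) z = N

/-- CHG: change of all factors by an exact cochain. -/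
def T_CHG : Prop := ∀ (X : Type) (K : Set (Set X)), Down K → ∀ (g g' : X → X → X → ℝ)
  (θ : X → X → ℝ), Cl2 K g → Cl2 K g' →
  (∀ S ∈ K, ∀ x ∈ S, ∀ y ∈ S, ∀ z ∈ S, g x y z - g' x y z = d1 θ x y z) →
  ∀ (n : ℕ) (z : LL (2 * n + 1) X), On K z → bdL (2 * n) X z = 0 →
  ev (2 * n) (PL (List.replicate n g)) z = ev (2 * n) (PL (List.replicate n g')) z

/-- BNX: the binomial formula on cycles. -/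
def T_BNX : Prop := ∀ (X : Type) (K : Set (Set X)), Down K → ∀ (y v : X → X → X → ℝ) (r : ℝ),
  Cl2 K y → Cl2 K v → ∀ (n : ℕ) (z : LL (2 * n + 1) X), On K z → bdL (2 * n) X z = 0 →
  ev (2 * n) (PL (List.replicate n (fun a b c => y a b c + r * v a b c))) z =
    ∑ j ∈ Finset.range (n + 1), (n.choose j : ℝ) * r ^ (n - j) *
      ev (2 * n) (PL (List.replicate j y ++ List.replicate (n - j) v)) z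

/-- ARI: arithmetic of binomial coefficients. -/
def T_ARI : Prop := ∀ (n m : ℕ) (b : ℕ → ℤ), 1 ≤ n → (∀ j, m ≤ j → j ≤ n → b j = 0) →
  ∑ j ∈ Finset.range (n + 1), (n.choose j : ℤ) * 2 ^ (n - j) * b j = 0 →
  (n : ℤ) ∣ m.factorial * 2 ^ m * ∑ j ∈ Finset.range (n + 1), (n.choose j : ℤ) * b j

/-- ABS: the algebraic theorem. -/
def T_ABS : Prop := ∀ (X : Type) (K₁ K₂ : Set (Set X)), Down K₁ → Down K₂ →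
  ∀ (u u' c : X → X → X → ℝ) (θ θ₁ θ₂ : X → X → ℝ) (m : ℕ) (η : Fin m → X → X → ℝ)
    (w : Fin m → ℤ), (∀ i, w i ≠ 0) → Cl2 K₁ u → Cl2 K₂ c → Cl2 (K₁ ∩ K₂) u' →
  (∀ S ∈ K₁ ∩ K₂, ∀ x ∈ S, ∀ y ∈ S, ∀ z ∈ S, ∃ j : ℤ, u x y z - d1 θ₁ x y z = j) →
  (∀ S ∈ K₁ ∩ K₂, ∀ x ∈ S, ∀ y ∈ S, ∀ z ∈ S, ∃ j : ℤ, u' x y z - d1 θ₂ x y z = j) →
  (∀ S ∈ K₁ ∩ K₂, ∀ x ∈ S, ∀ y ∈ S, ∀ z ∈ S,
    u x y z + u' x y z - c x y z = d1 θ x y z) →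
  (∀ S ∈ K₁ ∩ K₂, S.Nonempty → ∃ i, ∀ x ∈ S, ∀ y ∈ S, ∀ z ∈ S,
    w i * (u x y z - u' x y z) = d1 (η i) x y z) →
  ∀ (n : ℕ), 1 ≤ n → ∀ b : LL (2 * n + 2) X, On (K₁ ∪ K₂) b →
  (∀ t ∈ (bdL (2 * n + 1) X b).support, Set.range t ∈ K₁ ∧ Set.range t ∉ K₂) →
  ∃ N : ℤ, m.factorial * 2 ^ m *
    ev (2 * n) (PL (List.replicate n u)) (bdL (2 * n + 1) X b) = n * N

/-! ## D. Eigenvectors -/

/-- EIG: existence of the basis of eigenvectors. -/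
def T_EIG : Prop := ∀ (κ : ℝ) (J : Type) [Fintype J] (d : ℕ) (t : J → ℝ) (x : J → V d),
  Wt t → (∀ j, ‖x j‖ = 1) →
  (∀ i j, t i ≠ 0 → t j ≠ 0 → κ ≤ ‖inner ℂ (x i) (x j)‖ ^ 2) →
  ∃ C : Cfg κ J (V d) d, C.t = t ∧ C.x = x ∧ Antitone C.r

/-- PER: perturbation of the eigenvectors. -/
def T_PRT : Prop := ∀ (κ : ℝ) (J : Type) [Fintype J] (k : ℕ)
  (C C' : Cfg κ J (V (k + 1 + 2)) (k + 1 + 2)) (δ : ℝ), C.x = C'.x → Antitone C.r →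
  Antitone C'.r → ∑ j, |C.t j - C'.t j| ≤ δ →
  |(C.r 0 - C.r 1) - (C'.r 0 - C'.r 1)| ≤ 3 * δ ∧
  (C.r 0 - C.r 1) * (1 - ‖inner ℂ (C.e 0) (C'.e 0)‖ ^ 2) ≤ 2 * δ ∧
  (C.r 1 - C.r 2) * (2 - (‖inner ℂ (C.e 0) (C'.e 0)‖ ^ 2 + ‖inner ℂ (C.e 0) (C'.e 1)‖ ^ 2 +
    ‖inner ℂ (C.e 1) (C'.e 0)‖ ^ 2 + ‖inner ℂ (C.e 1) (C'.e 1)‖ ^ 2)) ≤ 4 * δ

/-- QUA: the mean of the squares of the overlaps. -/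
def T_QUA : Prop := ∀ (κ : ℝ) (J E : Type) [Fintype J] [NormedAddCommGroup E]
  [InnerProductSpace ℂ E] (d : ℕ) (C : Cfg κ J E d) (S : Finset (Fin d)),
  2 * (∑ a ∈ S, C.r a) ^ 4 ≤ (S.card : ℝ) * (S.card + 1) * qq C.t C.x 2 1

/-- TRI: the first three eigenvalues are not nearly equal. -/
def T_TRP : Prop := ∀ κ : ℝ, 1 / 4 < κ → ∃ η : ℝ, 0 < η ∧ ∀ (J : Type) [Fintype J] (k : ℕ)
  (C : Cfg κ J (V (k + 1 + 2)) (k + 1 + 2)), Antitone C.r → C.r 0 - C.r 1 ≤ η →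
  η ≤ C.r 1 - C.r 2

/-- GAP: a point which is near to all points of the support. -/
def T_GAP : Prop := ∀ (κ : ℝ) (J : Type) [Fintype J] (k : ℕ)
  (C : Cfg κ J (V (k + 1 + 2)) (k + 1 + 2)) (y : V (k + 1 + 2)), Antitone C.r → ‖y‖ = 1 →
  (∀ j, C.t j ≠ 0 → 7 / 10 ≤ ‖inner ℂ y (C.x j)‖ ^ 2) →
  2 / 5 ≤ C.r 0 - C.r 1 ∧ 1 / 2 ≤ ‖inner ℂ y (C.e 0)‖ ^ 2

/-! ## E. Phase cochains -/

/-- SPH: phases of small triangles. -/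
def T_SPH : Prop := ∀ β : ℝ, 0 < β → ∃ s : ℝ, 0 < s ∧ ∀ (E : Type) [NormedAddCommGroup E]
  [InnerProductSpace ℂ E] (a b c : E), ‖a‖ = 1 → ‖b‖ = 1 → ‖c‖ = 1 →
  1 - s ≤ ‖inner ℂ a b‖ ^ 2 → 1 - s ≤ ‖inner ℂ b c‖ ^ 2 → 1 - s ≤ ‖inner ℂ c a‖ ^ 2 →
  |ar a b c| ≤ β

/-- FRI: the phase cochain is closed, and exact modulo integers. -/
def T_FRI : Prop := ∀ (X E : Type) [NormedAddCommGroup E] [InnerProductSpace ℂ E] (f : X → E)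
  (K : Set (Set X)), (∀ x, ‖f x‖ = 1) →
  (∀ S ∈ K, ∀ x ∈ S, ∀ y ∈ S, 1 / 2 ≤ ‖inner ℂ (f x) (f y)‖ ^ 2) →
  Cl2 K (up f) ∧ ∃ θ : X → X → ℝ, ∀ S ∈ K, ∀ x ∈ S, ∀ y ∈ S, ∀ z ∈ S,
    ∃ j : ℤ, up f x y z - d1 θ x y z = j

/-- NEA: two fields of lines which are not orthogonal. -/
def T_NEA : Prop := ∃ s : ℝ, 0 < s ∧ ∀ (X E : Type) [NormedAddCommGroup E]
  [InnerProductSpace ℂ E] (f g : X → E) (K : Set (Set X)), (∀ x, ‖f x‖ = 1) →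
  (∀ x, ‖g x‖ = 1) →
  (∀ S ∈ K, ∀ x ∈ S, ∀ y ∈ S, 1 - s ≤ ‖inner ℂ (f x) (f y)‖ ^ 2 ∧
    1 - s ≤ ‖inner ℂ (g x) (g y)‖ ^ 2 ∧ 1 / 2 ≤ ‖inner ℂ (f x) (g x)‖ ^ 2) →
  ∃ θ : X → X → ℝ, ∀ S ∈ K, ∀ x ∈ S, ∀ y ∈ S, ∀ z ∈ S,
    up f x y z - up g x y z = d1 θ x y z

/-- WDG: the exterior square. -/
def T_WDG : Prop := ∀ (d : ℕ) (h h' l l' : V d), ‖h‖ = 1 → ‖h'‖ = 1 → inner ℂ h h' = 0 →
  ‖l‖ = 1 → ‖l'‖ = 1 → inner ℂ l l' = 0 →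
  ‖wd h h'‖ = 1 ∧
  (inner ℂ (wd h h') (wd l l') = inner ℂ h l * inner ℂ h' l' - inner ℂ h l' * inner ℂ h' l) ∧
  (∀ s : ℝ, 2 - s ≤ ‖inner ℂ h l‖ ^ 2 + ‖inner ℂ h l'‖ ^ 2 + ‖inner ℂ h' l‖ ^ 2 +
      ‖inner ℂ h' l'‖ ^ 2 →
    1 - s ≤ ‖inner ℂ (wd h h') (wd l l')‖ ^ 2 ∧
    (1 - s ≤ ‖inner ℂ h l‖ ^ 2 → 1 - 3 * s ≤ ‖inner ℂ h' l'‖ ^ 2 ∧
      ‖inner ℂ h l'‖ ^ 2 ≤ s ∧ ‖inner ℂ h' l‖ ^ 2 ≤ s))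

/-- UPC: the phase cochain of the exterior square is the sum of the two phase cochains, up to an
exact cochain. -/
def T_UPC : Prop := ∃ s : ℝ, 0 < s ∧ ∀ (X : Type) (d : ℕ) (f f' : X → V d) (K : Set (Set X)),
  (∀ x, ‖f x‖ = 1 ∧ ‖f' x‖ = 1 ∧ inner ℂ (f x) (f' x) = 0) →
  (∀ S ∈ K, ∀ x ∈ S, ∀ y ∈ S, 1 - s ≤ ‖inner ℂ (f x) (f y)‖ ^ 2 ∧
    2 - s ≤ ‖inner ℂ (f x) (f y)‖ ^ 2 + ‖inner ℂ (f x) (f' y)‖ ^ 2 +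
      ‖inner ℂ (f' x) (f y)‖ ^ 2 + ‖inner ℂ (f' x) (f' y)‖ ^ 2) →
  ∃ θ : X → X → ℝ, ∀ S ∈ K, ∀ x ∈ S, ∀ y ∈ S, ∀ z ∈ S,
    up f x y z + up f' x y z - up (fun u => wd (f u) (f' u)) x y z = d1 θ x y z

/-- SCT: a nowhere vanishing equivariant function makes a multiple of the difference of the two
phase cochains exact. -/
def T_SCT : Prop := ∀ (w : ℤ) (c : ℝ), 0 < c → ∃ s : ℝ, 0 < s ∧ ∀ (X E : Type)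
  [NormedAddCommGroup E] [InnerProductSpace ℂ E] (f f' : X → E) (σ : X → ℂ), (∀ x, ‖f x‖ = 1) →
  (∀ x, ‖f' x‖ = 1) → ∃ η : X → X → ℝ, ∀ S : Set X,
  (∀ x ∈ S, ∀ y ∈ S, 1 - s ≤ ‖inner ℂ (f x) (f y)‖ ^ 2 ∧
    1 - s ≤ ‖inner ℂ (f' x) (f' y)‖ ^ 2 ∧ c ≤ ‖σ x‖ ∧
    ‖σ y - (ph (inner ℂ (f' x) (f' y)) * (starRingEnd ℂ) (ph (inner ℂ (f x) (f y)))) ^ w *
      σ x‖ ≤ s) →
  ∀ x ∈ S, ∀ y ∈ S, ∀ z ∈ S, w * (up f x y z - up f' x y z) = d1 η x y z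

/-- FRM: the frame: all hypotheses of ABS for the eigenvectors. -/
def T_FRM : Prop := ∀ (κ κ₂ : ℝ) (m k : ℕ) (J : Type) [Fintype J] (x : J → V (k + 1 + 2))
  (σ : Sec κ κ₂ m (k + 1) J x), 1 / 4 < κ₂ → κ₂ < κ → ∃ δ η₁ η₂ : ℝ, 0 < δ ∧ 0 < η₁ ∧
  η₁ < η₂ ∧ η₂ ≤ 1 / 8 ∧ ∀ (X : Type) (C : X → Cfg κ J (V (k + 1 + 2)) (k + 1 + 2)),
  (∀ u, (C u).x = x) → (∀ u, Antitone (C u).r) →
  Ks C δ ⊆ KA C δ η₁ ∪ KB C δ η₂ ∧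
  (∀ S ∈ KA C δ η₁, ∀ u ∈ S, ∀ v ∈ S, 1 / 2 ≤ ‖inner ℂ (f0 C u) (f0 C v)‖ ^ 2) ∧
  (∀ S ∈ KB C δ η₂, ∀ u ∈ S, ∀ v ∈ S, 1 / 2 ≤ ‖inner ℂ (f2 C u) (f2 C v)‖ ^ 2) ∧
  (∀ S ∈ KA C δ η₁ ∩ KB C δ η₂, ∀ u ∈ S, ∀ v ∈ S, 1 / 2 ≤ ‖inner ℂ (f1 C u) (f1 C v)‖ ^ 2) ∧
  (∃ θ : X → X → ℝ, ∀ S ∈ KA C δ η₁ ∩ KB C δ η₂, ∀ u ∈ S, ∀ v ∈ S, ∀ z ∈ S,
    up (f0 C) u v z + up (f1 C) u v z - up (f2 C) u v z = d1 θ u v z) ∧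
  (∃ η : Fin m → X → X → ℝ, ∀ S ∈ KA C δ η₁ ∩ KB C δ η₂, S.Nonempty →
    ∃ i, ∀ u ∈ S, ∀ v ∈ S, ∀ z ∈ S,
      σ.w i * (up (f0 C) u v z - up (f1 C) u v z) = d1 (η i) u v z)

/-! ## F. The neighbourhood -/

/-- WGT: weights on the neighbourhood of the Kuratowski image. -/
def T_WGT : Prop := ∀ (M : Type) [MetricSpace M] [CompactSpace M] [BoundedSpace M]
  [Nonempty M] (ε δ : ℝ), 0 < ε → 0 < δ →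
  ∃ (N : ℕ) (P : Fin N → M) (t : UE M ε → Fin N → ℝ) (L : ℝ), 0 ≤ L ∧ (∀ f, Wt (t f)) ∧
    (∀ f i j, t f i ≠ 0 → t f j ≠ 0 → dist (P i) (P j) < 2 * (ε + δ)) ∧
    (∀ (hε : 0 < ε) (m : M) i, t (kf M ε hε m) i ≠ 0 → dist (P i) m < ε + δ) ∧
    ∀ f g : UE M ε, ∑ i, |t f i - t g i| ≤ L * dist f.1 g.1

/-- COR: the core: from weights to the divisibility. -/
def T_COR : Prop := ∀ (κ κ₂ : ℝ) (m : ℕ), 1 / 4 < κ₂ → κ₂ < κ →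
  (∀ (k : ℕ) (J : Type) [Fintype J] (x : J → V (k + 2)), (∀ j, ‖x j‖ = 1) →
    Nonempty (Sec κ κ₂ m k J x)) →
  ∀ (k : ℕ) (ε : ℝ) (hε : 0 < ε), ε < Real.pi / 6 → ε < Real.arccos (2 * κ - 1) / 4 →
  ∀ N : ℤ, KillsN N (2 * (k + 2)) (kc (CPn (k + 2)) ε hε) →
  ((k + 2 : ℕ) : ℤ) ∣ m.factorial * 2 ^ m * N

/-- ORD: the order of the class is at least `n / C`, `C` depends only on `ε₀`. -/
def T_ORD : Prop := ∀ ε₀ : ℝ, ε₀ < Real.pi / 6 → ∃ C : ℕ, 1 ≤ C ∧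
  ∀ (n : ℕ), 1 ≤ n → ∀ (ε : ℝ) (hε : 0 < ε), ε ≤ ε₀ → ∀ N : ℤ,
    KillsN N (2 * n) (kc (CPn n) ε hε) → (n : ℤ) ∣ C * N

/-- ASY: the asymptotic value. -/
def T_ASY : Prop := Tendsto (fun n : ℕ => FillR (CPn n) (2 * n)) atTop (𝓝 (Real.pi / 6))

end

end Pool.Agent.H30.FA
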