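import Pool.Agent.H42.FA.BAS
import Pool.Agent.H42.FA.COM
import Pool.Agent.H42.FA.OVL
import Pool.Agent.H11.FA.FLP
import Pool.Agent.H11.FA.NSY
import Pool.Agent.H11.FA.PDK
import Pool.Agent.H13.FA.FTR
import Pool.Agent.H46.FA.SEC
import Pool.Agent.H57.FAS.DET
import Pool.Agent.H57.FAS.FOU
import Pool.Agent.H59.FA.DSP
import Pool.Agent.H59.FA.SMO
import Pool.Agent.H59.FA.TRN
import Pool.Agent.H60.FA.SEL
import Pool.Agent.H91.FAS.TOP
import Pool.Agent.H4.FA.STE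
import Pool.Agent.H54.FA.WDG
import Pool.Agent.H67.FA.REC

/-!
# Parts A and B without hypotheses: no approximate symmetry, and the sections
-/

set_option autoImplicit false

namespace Pool.Agent.H30.FA.All

open Pool.Agent.H30.FA

theorem bas : T_BAS := Pool.Agent.H42.FA.pf_BAS

theorem sec : T_SEC := by
  have hPDK : T_PDK := Pool.Agent.H11.FA.pf_PDK
  have hREC : T_REC := Pool.Agent.H67.FA.pf_REC bas (Pool.Agent.H42.FA.pf_COM bas) hPDK
  have hSTE : T_STE := Pool.Agent.H4.FA.pf_STE bas hPDK hREC Pool.Agent.H91.FAS.pf_IRR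
    (Pool.Agent.H91.FAS.pf_TOP Pool.Agent.H91.FAS.pf_TRA Pool.Agent.H91.FAS.pf_AGS)
    Pool.Agent.H60.FA.pf_SEL (Pool.Agent.H91.FAS.pf_RED bas) (Pool.Agent.H42.FA.pf_OVL hPDK)
    (Pool.Agent.H91.FAS.pf_LOW2 bas) (Pool.Agent.H91.FAS.pf_MID bas)
    (Pool.Agent.H59.FA.pf_DSP bas)
  have hNSY : T_NSY := Pool.Agent.H11.FA.pf_NSY bas hSTE
  have hFTR : T_FTR := Pool.Agent.H13.FA.pf_FTR
  have hFLP : T_FLP := Pool.Agent.H11.FA.pf_FLP hFTR
  have hDET : T_DET := Pool.Agent.H57.FAS.pf_DET hNSY bas hFTR hFLP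
    (Pool.Agent.H59.FA.pf_TRN bas)
  exact Pool.Agent.H46.FA.pf_SEC hDET Pool.Agent.H57.FAS.pf_FOU hFLP
    (Pool.Agent.H59.FA.pf_SMO hFLP) Pool.Agent.H54.FA.pf_NET hFTR bas

end Pool.Agent.H30.FA.All
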