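import Mathlib

/-!
MP_6a7a6f_gt, asymptotic value of the filling radius of complex projective spaces: definitions of
parts A (symmetries of configurations) and B (sections).
-/

namespace Pool.Agent.H30.FA

noncomputable section

/-- the complex space with coordinates `Fin d` -/
abbrev V (d : ℕ) : Type := EuclideanSpace ℂ (Fin d)

/-- A configuration: finitely many unit vectors `x j` with weights `t j`, whose pairwise overlaps
are at least `κ` on the support of the weights, and an orthonormal basis `e` in which the second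
moment is diagonal, with eigenvalues `r`. -/
structure Cfg (κ : ℝ) (J E : Type) [Fintype J] [NormedAddCommGroup E] [InnerProductSpace ℂ E]
    (d : ℕ) where
  t : J → ℝ
  x : J → E
  e : OrthonormalBasis (Fin d) ℂ E
  r : Fin d → ℝ
  t_nonneg : ∀ j, 0 ≤ t j
  t_sum : ∑ j, t j = 1
  norm_x : ∀ j, ‖x j‖ = 1
  adj : ∀ i j, t i ≠ 0 → t j ≠ 0 → κ ≤ ‖inner ℂ (x i) (x j)‖ ^ 2
  diag : ∀ a b, ∑ j, (t j : ℂ) * (inner ℂ (e a) (x j) * inner ℂ (x j) (e b)) =
    if a = b then (r a : ℂ) else 0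

/-- the moment of order `j` of the overlaps of `x` and `g x` -/
def qq {J E : Type} [Fintype J] [NormedAddCommGroup E] [InnerProductSpace ℂ E] (t : J → ℝ)
    (x : J → E) (j : ℕ) (g : E ≃ₗᵢ[ℂ] E) : ℝ :=
  ∑ i, ∑ k, t i * t k * ‖inner ℂ (x i) (g (x k))‖ ^ (2 * j)

/-- `g` is a symmetry of the configuration up to `ε`, tested by the moments of order at most
`D`; it fixes the basis vector `a₀` and turns the basis vector `a₁` by the angle `1`, both up to
`ε` -/
def Sy {κ : ℝ} {J E : Type} [Fintype J] [NormedAddCommGroup E] [InnerProductSpace ℂ E] {d : ℕ}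
    (C : Cfg κ J E d) (D : ℕ) (ε : ℝ) (a₀ a₁ : Fin d) (g : E ≃ₗᵢ[ℂ] E) : Prop :=
  ‖g (C.e a₀) - C.e a₀‖ ≤ ε ∧ ‖g (C.e a₁) - Complex.exp Complex.I • C.e a₁‖ ≤ ε ∧
    ∀ j, j ≤ D → qq C.t C.x j 1 - ε ≤ qq C.t C.x j g

/-- the sum of the eigenvalues in the interval `[δ', δ)` -/
def midsum {κ : ℝ} {J E : Type} [Fintype J] [NormedAddCommGroup E] [InnerProductSpace ℂ E] {d : ℕ}
    (C : Cfg κ J E d) (δ' δ : ℝ) : ℝ :=
  ∑ a, if δ' ≤ C.r a ∧ C.r a < δ then C.r a else 0

/-- the part of the inner product of `z` and `y` which belongs to the basis vectors with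
`P a` -/
def pin {E : Type} [NormedAddCommGroup E] [InnerProductSpace ℂ E] {d : ℕ}
    (e : OrthonormalBasis (Fin d) ℂ E) (S : Finset (Fin d)) (z y : E) : ℂ :=
  ∑ a ∈ S, inner ℂ z (e a) * inner ℂ (e a) y

/-! ## sections -/

/-- index set of the features -/
abbrev FI (A D : ℕ) : Type := Σ j : Fin (D + 1), (Fin (j : ℕ) → Fin A × Fin A)

/-- the feature space -/
abbrev FF (A D : ℕ) : Type := EuclideanSpace ℂ (FI A D)

/-- the features of a vector: all products of at most `D` factors `z_a conj z_b` -/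
def ft {A : ℕ} (D : ℕ) (z : Fin A → ℂ) : FF A D :=
  WithLp.toLp 2 fun p => ∏ l, (z (p.2 l).1 * (starRingEnd ℂ) (z (p.2 l).2))

/-- the first `A` coordinates -/
def trc (A : ℕ) {d : ℕ} (z : V d) : Fin A → ℂ :=
  fun a => if h : (a : ℕ) < d then z ⟨a, h⟩ else 0

/-- the mean of the features of the vectors `G⁻¹ x j` -/
def mom (A D : ℕ) {J : Type} [Fintype J] {d : ℕ} (t : J → ℝ) (x : J → V d)
    (G : V d ≃ₗᵢ[ℂ] V d) : FF A D :=
  ∑ j, (t j : ℂ) • ft D (trc A (G.symm (x j)))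

/-- the standard basis -/
def eb {d : ℕ} (a : Fin d) : V d := EuclideanSpace.single a 1

/-- the quantity which is minimised in `FV` -/
def fG {A D : ℕ} {J : Type} [Fintype J] {k : ℕ} (v : FF A D) (t : J → ℝ) (x : J → V (k + 2))
    (h h' : V (k + 2)) (G : V (k + 2) ≃ₗᵢ[ℂ] V (k + 2)) : ℝ :=
  ‖v - mom A D t x G‖ + ‖G (eb 0) - h‖ + ‖G (eb 1) - h'‖

/-- the distance of `v` from the moments of the configuration, seen in the orthonormal frames
which begin with `h`, `h'` -/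
def FV {A D : ℕ} {J : Type} [Fintype J] {k : ℕ} (v : FF A D) (t : J → ℝ) (x : J → V (k + 2))
    (h h' : V (k + 2)) : ℝ :=
  ⨅ G : V (k + 2) ≃ₗᵢ[ℂ] V (k + 2), fG v t x h h' G

/-- the Fourier coefficients -/
def SV {A D : ℕ} {J : Type} [Fintype J] {k : ℕ} (v : FF A D) (w : ℤ) (t : J → ℝ)
    (x : J → V (k + 2)) (h h' : V (k + 2)) : ℂ :=
  ∫ θ in (0 : ℝ)..(2 * Real.pi),
    ((FV v t x h (Complex.exp (θ * Complex.I) • h') : ℝ) : ℂ) *
      Complex.exp (-(w * θ) * Complex.I)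

/-- weights -/
def Wt {J : Type} [Fintype J] (t : J → ℝ) : Prop := (∀ j, 0 ≤ t j) ∧ ∑ j, t j = 1

/-- Sections: `m` functions of the weights and of two vectors, equivariant of nonzero weights,
Lipschitz, and one of them is at least `c` at the first two eigenvectors of every configuration
whose second eigenvalue is at least `κ₂`. -/
structure Sec (κ κ₂ : ℝ) (m k : ℕ) (J : Type) [Fintype J] (x : J → V (k + 2)) where
  S : Fin m → (J → ℝ) → V (k + 2) → V (k + 2) → ℂ
  w : Fin m → ℤ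
  L : ℝ
  c : ℝ
  L_nonneg : 0 ≤ L
  c_pos : 0 < c
  w_ne : ∀ i, w i ≠ 0
  lip : ∀ i t t' h h' l l', Wt t → Wt t' →
    ‖S i t h h' - S i t' l l'‖ ≤ L * (∑ j, |t j - t' j| + ‖h - l‖ + ‖h' - l'‖)
  eqv : ∀ i t h h' (α β : ℂ), Wt t → ‖α‖ = 1 → ‖β‖ = 1 →
    S i t (α • h) (β • h') = (β * (starRingEnd ℂ) α) ^ (w i) * S i t h h'
  nv : ∀ C : Cfg κ J (V (k + 2)) (k + 2), C.x = x → Antitone C.r → κ₂ ≤ C.r 1 →
    ∃ i, c ≤ ‖S i C.t (C.e 0) (C.e 1)‖

end

end Pool.Agent.H30.FA
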