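import Pool.Agent.H30.FA.Defs
import Pool.Agent.H58.FL.Targets

/-!
MP_6a7a6f_gt, asymptotic value of the filling radius of complex projective spaces: definitions of
part C (the topological frame).
-/

namespace Pool.Agent.H30.FA

noncomputable section

open Pool.Agent.H59 Pool.Agent.H48.FR Pool.Agent.H58.FL

/-- the phase cochain of a field of vectors -/
def up {X E : Type} [NormedAddCommGroup E] [InnerProductSpace ℂ E] (f : X → E) (x y z : X) : ℝ :=
  ar (f x) (f y) (f z) / (2 * Real.pi)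

/-- the unit vector in the exterior square which belongs to an orthonormal pair -/
def wd {d : ℕ} (h h' : V d) : EuclideanSpace ℂ (Fin d × Fin d) :=
  WithLp.toLp 2 fun p => ((Real.sqrt 2)⁻¹ : ℝ) * (h p.1 * h' p.2 - h p.2 * h' p.1)

/-- the phase of a complex number -/
def ph (z : ℂ) : ℂ := z / (‖z‖ : ℝ)

section

variable {κ : ℝ} {J X : Type} [Fintype J] {k : ℕ}

/-- the first eigenvector -/
def f0 (C : X → Cfg κ J (V (k + 1 + 2)) (k + 1 + 2)) (u : X) : V (k + 1 + 2) := (C u).e 0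

/-- the second eigenvector -/
def f1 (C : X → Cfg κ J (V (k + 1 + 2)) (k + 1 + 2)) (u : X) : V (k + 1 + 2) := (C u).e 1

/-- the plane of the first two eigenvectors -/
def f2 (C : X → Cfg κ J (V (k + 1 + 2)) (k + 1 + 2)) (u : X) :
    EuclideanSpace ℂ (Fin (k + 1 + 2) × Fin (k + 1 + 2)) := wd (f0 C u) (f1 C u)

/-- sets on which the weights vary by at most `δ` -/
def Ks (C : X → Cfg κ J (V (k + 1 + 2)) (k + 1 + 2)) (δ : ℝ) : Set (Set X) :=
  {S | ∀ u ∈ S, ∀ v ∈ S, ∑ j, |(C u).t j - (C v).t j| ≤ δ}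

/-- small sets on which the first gap is at least `η` -/
def KA (C : X → Cfg κ J (V (k + 1 + 2)) (k + 1 + 2)) (δ η : ℝ) : Set (Set X) :=
  {S | S ∈ Ks C δ ∧ ∀ u ∈ S, η ≤ (C u).r 0 - (C u).r 1}

/-- small sets on which the first gap is at most `η` -/
def KB (C : X → Cfg κ J (V (k + 1 + 2)) (k + 1 + 2)) (δ η : ℝ) : Set (Set X) :=
  {S | S ∈ Ks C δ ∧ ∀ u ∈ S, (C u).r 0 - (C u).r 1 ≤ η}

end

end

end Pool.Agent.H30.FA
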